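import Mathlib

set_option autoImplicit false

namespace Pool.Agent.H.MP_942486_an

open MeasureTheory Set Filter Topology Metric
open scoped ENNReal

instance : IsProbabilityMeasure (volume : Measure UnitAddCircle) := ⟨UnitAddCircle.measure_univ⟩

theorem step {U V : Set UnitAddCircle} (hU : MeasurableSet U) (hV : MeasurableSet V) :
    ∃ τ, volume (U ∩ (· + τ) ⁻¹' V) ≤ volume U * volume V := by
  have m : MeasurableSet ((fun z : UnitAddCircle × UnitAddCircle => (z.1, z.1 + z.2)) ⁻¹' U ×ˢ V) :=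
    (by fun_prop : Measurable _) (hU.prod hV)
  obtain ⟨τ, h⟩ := exists_le_lintegral (μ := volume) (measurable_measure_prodMk_right
    (μ := volume) m).aemeasurable
  rw [← Measure.prod_apply_symm m, (measurePreserving_prod_add volume volume).measure_preimage
    (hU.prod hV).nullMeasurableSet, Measure.prod_prod] at h
  exact ⟨τ, h⟩

theorem greedy {W : Set UnitAddCircle} (hW : MeasurableSet W) (r : ℕ) :
    ∃ s : Finset UnitAddCircle, s.card ≤ r ∧
      volume (⋂ τ ∈ s, (· + τ) ⁻¹' Wᶜ) ≤ volume Wᶜ ^ r := by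
  classical
  induction r with
  | zero => exact ⟨∅, by simp, by simp⟩
  | succ r ih =>
    obtain ⟨s, s1, s2⟩ := ih
    obtain ⟨τ, h⟩ := step (s.measurableSet_biInter fun τ _ => measurable_add_const τ hW.compl)
      hW.compl
    refine ⟨insert τ s, (Finset.card_insert_le _ _).trans (by omega), ?_⟩
    rw [Finset.set_biInter_insert, inter_comm, pow_succ]
    exact h.trans (by gcongr)

theorem cover {n : ℕ} (hn : 8 ≤ n) (t : UnitAddCircle) : ∃ l ∈ Finset.range 17,
    t + (l * (n / 8)) • ((1 / n : ℝ) : UnitAddCircle) ∈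
      closedBall ((1 / 2 : ℝ) : UnitAddCircle) (1 / 16) := by
  obtain ⟨y, hy, e⟩ := AddCircle.eq_coe_Ico (((1 / 2 : ℝ) : UnitAddCircle) - t)
  have n0 : (0 : ℝ) < n := by exact_mod_cast (by omega : 0 < n)
  set δ : ℝ := (n / 8 : ℕ) / n with hδ
  have d1 : δ ≤ 1 / 8 := by
    rw [hδ, div_le_div_iff₀ n0 (by norm_num)]
    exact_mod_cast (by omega : n / 8 * 8 ≤ 1 * n)
  have d2 : 1 / 16 ≤ δ := by
    rw [hδ, div_le_div_iff₀ (by norm_num) n0]
    exact_mod_cast (by omega : 1 * n ≤ n / 8 * 16)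
  have d0 : 0 < δ := by linarith
  have p : 0 ≤ y / δ + 1 / 2 := by have := hy.1; positivity
  have a := Nat.floor_le p
  have b := Nat.lt_floor_add_one (y / δ + 1 / 2)
  refine ⟨⌊y / δ + 1 / 2⌋₊, Finset.mem_range.2 ((Nat.floor_lt p).2 ?_), ?_⟩
  · have : y / δ ≤ 16 := by rw [div_le_iff₀ d0]; linarith [hy.2]
    push_cast; linarith
  · rw [mem_closedBall, dist_eq_norm, add_sub_right_comm, ← neg_sub, ← e, ← AddCircle.coe_nsmul,
      ← AddCircle.coe_neg, ← AddCircle.coe_add]
    refine QuotientAddGroup.norm_mk_le_norm.trans ?_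
    rw [nsmul_eq_mul, Nat.cast_mul, mul_assoc, mul_one_div, ← hδ, Real.norm_eq_abs, abs_le]
    have : y = y / δ * δ := by field_simp
    constructor <;> nlinarith

theorem stage (K : ℕ) {ε : ℝ} (hε : 0 < ε) : ∃ (S : Finset ℕ) (E : ℕ → Set UnitAddCircle),
    (∀ n ∈ S, K ≤ n) ∧ (∀ n, MeasurableSet (E n)) ∧
    (∀ n ∈ S, ∀ (a : ℤ), ∀ x ∈ E n, x + a • ((1 / n : ℝ) : UnitAddCircle) ∈ E n) ∧
    volume (closedBall 0 (1 / 16) ∩ ⋃ n ∈ S, E n) ≤ ENNReal.ofReal ε ∧
    volume (⋃ n ∈ S, E n)ᶜ ≤ ENNReal.ofReal (7 / 8) := by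
  obtain ⟨m, hm⟩ := exists_nat_gt (34 / ε)
  obtain ⟨S, hS, hc⟩ := (Nat.infinite_setOfPred_prime.sdiff
    (finite_lt_nat (max K 8))).exists_subset_card_eq m
  have pr : ∀ n ∈ S, n.Prime := fun n h => (hS h).1
  have big : ∀ n ∈ S, max K 8 ≤ n := fun n h => not_lt.1 (hS h).2
  let u : ℕ → UnitAddCircle := fun n => ((1 / n : ℝ) : UnitAddCircle)
  let M : ℕ → ℕ := fun n => (∏ j ∈ S.erase n, j) ^ n.totient
  have u0 : ∀ n ∈ S, n • u n = 0 := fun n h => by
    rw [← AddCircle.coe_nsmul, nsmul_eq_mul, mul_one_div_cancel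
      (by exact_mod_cast (pr n h).ne_zero), AddCircle.coe_period]
  have u1 : ∀ n ∈ S, M n • u n = u n := fun n h => by
    have : M n ≡ 1 [MOD n] := Nat.ModEq.pow_totient (Nat.Coprime.prod_left fun j hj =>
      (Nat.coprime_primes (pr j (Finset.mem_of_mem_erase hj)) (pr n h)).2 (Finset.ne_of_mem_erase hj))
    rw [nsmul_eq_mod_nsmul _ (u0 n h), this, ← nsmul_eq_mod_nsmul _ (u0 n h), one_nsmul]
  have u2 : ∀ n ∈ S, ∀ j ∈ S.erase n, M j • u n = 0 := fun n h j hj => by
    obtain ⟨c, hc⟩ : n ∣ M j := dvd_pow (Finset.dvd_prod_of_mem _ (Finset.mem_erase.2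
      ⟨(Finset.ne_of_mem_erase hj).symm, h⟩))
      (Nat.totient_pos.2 (pr j (Finset.mem_of_mem_erase hj)).pos).ne'
    rw [hc, mul_nsmul, u0 n h, nsmul_zero]
  set B := closedBall ((1 / 2 : ℝ) : UnitAddCircle) (1 / 16) with hB
  have mB : ∀ j : ℕ, IsClosed ((fun x => j • x) ⁻¹' B) := fun j =>
    isClosed_closedBall.preimage (continuous_const_smul j)
  let O : Finset ℕ → Set UnitAddCircle := fun T => ⋂ j ∈ T, ((fun x => M j • x) ⁻¹' B)ᶜ
  have oO : ∀ T, IsOpen (O T) := fun T => isOpen_biInter_finset fun j _ => (mB _).isOpen_compl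
  have inv : ∀ n ∈ S, ∀ (a : ℤ), ∀ x ∈ O (S.erase n), x + a • u n ∈ O (S.erase n) :=
    fun n h a x hx => mem_iInter₂.2 fun j hj => by
      have := mem_iInter₂.1 hx j hj
      rwa [mem_compl_iff, mem_preimage, nsmul_add, smul_comm, u2 n h j hj, smul_zero, add_zero]
  let W : ℕ → Set UnitAddCircle := fun n => O (S.erase n) ∩ (fun x => M n • x) ⁻¹' B
  have mW : ∀ n, MeasurableSet (W n) := fun n => (oO _).measurableSet.inter (mB _).measurableSet
  have zw : ∀ n ∈ S, volume.real (O S) ≤ 17 * volume.real (W n) := fun n h => by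
    refine (measureReal_mono (s₂ := ⋃ l ∈ Finset.range 17, (· + (l * (n / 8)) • u n) ⁻¹' W n)
      (fun x hx => ?_) (measure_ne_top _ _)).trans ((measureReal_biUnion_finset_le _ _).trans (by
        simp [Measure.real, measure_preimage_add_right]))
    obtain ⟨l, l1, l2⟩ := cover ((le_max_right _ _).trans (big n h)) (M n • x)
    refine mem_iUnion₂.2 ⟨l, l1, ?_, ?_⟩
    · simpa only [natCast_zsmul] using inv n h (l * (n / 8) : ℕ) x
        (biInter_subset_biInter_left (S.erase_subset n) hx)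
    · rwa [mem_preimage, nsmul_add, smul_comm, u1 n h]
  set w := volume.real (⋃ n ∈ S, W n) with hw
  have z0 : 0 < volume.real (O S) := ENNReal.toReal_pos ((oO S).measure_ne_zero _ ⟨0,
    mem_iInter₂.2 fun j _ => by
      rw [mem_compl_iff, mem_preimage, nsmul_zero, hB, mem_closedBall, dist_zero_left,
        AddCircle.norm_half_period_eq]
      norm_num⟩) (measure_ne_top _ _)
  have zw' : m * volume.real (O S) ≤ 17 * w := by
    have dj : (S : Set ℕ).PairwiseDisjoint W := fun i hi j hj ne => disjoint_left.2 fun x h1 h2 =>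
      (mem_iInter₂.1 h1.1 j (Finset.mem_erase.2 ⟨ne.symm, hj⟩) : x ∉ _) h2.2
    rw [hw, measureReal_biUnion_finset dj (fun n _ => mW n) fun _ _ => measure_ne_top _ _,
      Finset.mul_sum, ← hc, ← nsmul_eq_mul]
    exact Finset.card_nsmul_le_sum _ _ _ zw
  have m0 : (0 : ℝ) < m := lt_trans (by positivity) hm
  have w0 : 0 < w := by nlinarith
  have w1 : w ≤ 1 := measureReal_le_one
  have mU := S.measurableSet_biUnion fun n _ => mW n
  obtain ⟨s, s1, s2⟩ := greedy mU ⌈1 / w⌉₊
  refine ⟨S, fun n => ⋃ τ ∈ s, ((· + τ) ⁻¹' O (S.erase n)) ∩ ⋂ k : ℤ,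
    ((fun x => M n • (x + τ) + k • u n) ⁻¹' B)ᶜ ∪ ((· + k • u n) ⁻¹' closedBall 0 (1 / 16))ᶜ,
    fun n h => (le_max_left _ _).trans (big n h), fun n => s.measurableSet_biUnion fun τ _ =>
      (measurable_add_const τ (oO _).measurableSet).inter (MeasurableSet.iInter fun k =>
        ((isClosed_closedBall.preimage (by fun_prop)).measurableSet.compl).union
        (measurable_add_const _ measurableSet_closedBall).compl), fun n h a x hx => ?_, ?_, ?_⟩
  · obtain ⟨τ, t1, t2, t3⟩ := mem_iUnion₂.1 hx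
    refine mem_iUnion₂.2 ⟨τ, t1, ?_, mem_iInter.2 fun k => ?_⟩
    · rw [mem_preimage, add_right_comm]; exact inv n h a _ t2
    · have := mem_iInter.1 t3 (a + k)
      simp only [mem_union, mem_compl_iff, mem_preimage] at this ⊢
      rwa [add_right_comm x, nsmul_add, smul_comm, u1 n h, add_assoc, add_assoc x, ← add_zsmul]
  · refine (measure_mono (t := ⋃ τ ∈ s, (· + τ) ⁻¹' O S) ?_).trans
      ((measure_biUnion_finset_le _ _).trans ?_)
    · rintro x ⟨h, hx⟩
      obtain ⟨n, hn, hx⟩ := mem_iUnion₂.1 hx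
      obtain ⟨τ, t1, t2, t3⟩ := mem_iUnion₂.1 hx
      refine mem_iUnion₂.2 ⟨τ, t1, mem_iInter₂.2 fun j hj => ?_⟩
      by_cases e : j = n
      · have := mem_iInter.1 t3 0
        simp only [mem_union, mem_compl_iff, mem_preimage, zero_zsmul, add_zero] at this ⊢
        exact e ▸ this.resolve_right (not_not.2 h)
      · exact mem_iInter₂.1 t2 j (Finset.mem_erase.2 ⟨e, hj⟩)
    · simp only [measure_preimage_add_right, Finset.sum_const]
      rw [← ofReal_measureReal (s := O S), ← ENNReal.ofReal_nsmul, nsmul_eq_mul]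
      refine ENNReal.ofReal_le_ofReal ?_
      have a : (s.card : ℝ) ≤ 2 / w := by
        have := Nat.ceil_lt_add_one (one_div_pos.2 w0).le
        have b : (s.card : ℝ) ≤ ⌈1 / w⌉₊ := by exact_mod_cast s1
        have c : 1 ≤ 1 / w := one_le_one_div w0 w1
        rw [show 2 / w = 1 / w + 1 / w by ring]; linarith
      rw [le_div_iff₀ w0] at a
      rw [div_lt_iff₀ hε] at hm
      have : (0 : ℝ) ≤ s.card := by positivity
      nlinarith [mul_le_mul_of_nonneg_left zw' this]
  · refine (measure_mono (t := (⋂ τ ∈ s, (· + τ) ⁻¹' (⋃ n ∈ S, W n)ᶜ) ∪ closedBall 0 (3 / 16))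
      fun x hx => ?_).trans ((measure_union_le _ _).trans ?_)
    · by_contra c
      simp only [mem_union, mem_iInter, not_or, not_forall, mem_preimage, mem_compl_iff,
        not_not] at c
      obtain ⟨⟨τ, t1, t2⟩, c⟩ := c
      obtain ⟨n, hn, t2, t3⟩ := mem_iUnion₂.1 t2
      refine hx (mem_iUnion₂.2 ⟨n, hn, mem_iUnion₂.2 ⟨τ, t1, t2, mem_iInter.2 fun k => ?_⟩⟩)
      by_contra d
      simp only [mem_union, not_or, mem_preimage, mem_compl_iff, not_not, hB, mem_closedBall]
        at d t3 c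
      have e1 := dist_triangle_right _ _ ((1 / 2 : ℝ) : UnitAddCircle) |>.trans (add_le_add d.1 t3)
      rw [dist_self_add_left] at e1
      have e2 := norm_sub_le (x + k • u n) (k • u n)
      simp only [add_sub_cancel_right, dist_zero_right] at e2 d c
      linarith [d.2]
    · rw [AddCircle.volume_closedBall, show (7 / 8 : ℝ) = 1 / 2 + 2 * (3 / 16) by norm_num,
        ENNReal.ofReal_add (by norm_num) (by norm_num)]
      refine add_le_add (s2.trans ?_) (ENNReal.ofReal_le_ofReal (min_le_right _ _))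
      rw [← ofReal_measureReal, probReal_compl_eq_one_sub mU, ← hw,
        ← ENNReal.ofReal_pow (by linarith)]
      refine ENNReal.ofReal_le_ofReal ((pow_le_pow_left₀ (by linarith) (Real.one_sub_le_exp_neg w)
        _).trans ?_)
      rw [← Real.exp_nat_mul]
      have := Nat.le_ceil (1 / w)
      rw [div_le_iff₀ w0] at this
      exact (Real.exp_le_exp.2 (by linarith)).trans (Real.exp_neg_one_lt_d9.le.trans (by norm_num))

end Pool.Agent.H.MP_942486_an
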